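import Pool.Agent.J6H88.CP.HtC

/-!
# The height of the value of a rational function at the zero of a member of a linear system
-/

set_option autoImplicit false
set_option linter.all false

namespace Pool.Agent.J6H88.CP

open Polynomial Module IntermediateField NumberField Height
open Pool.Agent.N753.DR (mem)
open Pool.Agent.J6H73.CP (dgm StmDeg StmHt)

/-- the degree of the zero of a member is bounded -/
theorem deg : StmDeg := by
  intro K A _ _ _ _ _ _ _ _ _ m f hf
  obtain ⟨b, -⟩ : ∃ b : Basis (Fin (finrank K[X] A)) K[X] A, b = b := by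
    have : Module.IsTorsionFree K[X] A := by
      rw [Module.isTorsionFree_iff_faithfulSMul]
      infer_instance
    exact ⟨Module.finBasis K[X] A, rfl⟩
  obtain ⟨D, C0, hC0⟩ := Pool.Agent.N265.CV.ht_norm b f
  refine ⟨D, ?_⟩
  intro M _ _ _ φ c hφ hker hc
  have hs0 : mem f c ≠ 0 := by
    intro h
    apply hc
    funext i
    exact Fintype.linearIndependent_iff.1 hf c h i
  have hfin : finrank K M = (Algebra.norm K[X] (mem f c)).natDegree := by
    rw [← finrank_quotient_span_eq_natDegree_norm b hs0, ← hker]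
    exact (LinearEquiv.finrank_eq (Ideal.quotientKerAlgEquivOfSurjective hφ).toLinearEquiv).symm
  rw [hfin]
  exact (hC0 c hc).1

/-- extension of a point to a localisation -/
theorem ext_pt {K A A2 M : Type} [Field K] [CommRing A] [Algebra K A] [CommRing A2] [Algebra K A2]
    [Algebra A A2] [IsScalarTower K A A2] [Field M] [Algebra K M] {s : A} [IsLocalization.Away s A2]
    (φ : A →ₐ[K] M) (hs : φ s ≠ 0) (hsurj : Function.Surjective φ) {x : A}
    (hker : RingHom.ker φ = Ideal.span {x}) :
    ∃ φ2 : A2 →ₐ[K] M, (∀ a, φ2 (algebraMap A A2 a) = φ a) ∧ Function.Surjective φ2 ∧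
      RingHom.ker φ2 = Ideal.span {algebraMap A A2 x} := by
  have hu : ∀ y : Submonoid.powers s, IsUnit (φ y) := by
    rintro ⟨y, n, rfl⟩
    simp only [map_pow]
    exact (isUnit_iff_ne_zero.2 hs).pow n
  let φ2 : A2 →ₐ[K] M := IsLocalization.liftAlgHom (M := Submonoid.powers s) (f := φ) hu
  have h1 : ∀ a, φ2 (algebraMap A A2 a) = φ a := fun a => by
    show IsLocalization.liftAlgHom (M := Submonoid.powers s) (f := φ) hu (algebraMap A A2 a) = _
    rw [IsLocalization.liftAlgHom_apply]
    exact IsLocalization.lift_eq _ a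
  refine ⟨φ2, h1, fun z => ?_, ?_⟩
  · obtain ⟨a, ha⟩ := hsurj z
    exact ⟨algebraMap A A2 a, by rw [h1, ha]⟩
  · apply le_antisymm
    · intro y hy
      rw [RingHom.mem_ker] at hy
      obtain ⟨⟨a, t⟩, ht⟩ := IsLocalization.surj (Submonoid.powers s) y
      have h2 : φ a = 0 := by
        rw [← h1, ← ht, map_mul]
        rw [show φ2 y = 0 from hy, zero_mul]
      have h3 : a ∈ Ideal.span {x} := by
        rw [← hker]
        exact h2
      obtain ⟨b, rfl⟩ := Ideal.mem_span_singleton.1 h3
      have hut : IsUnit (algebraMap A A2 t) := IsLocalization.map_units A2 t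
      rw [Ideal.mem_span_singleton]
      rw [← hut.dvd_mul_right (a := algebraMap A A2 x) (b := y)]
      have ht' : y * algebraMap A A2 t = algebraMap A A2 (x * b) := ht
      rw [ht', map_mul]
      exact dvd_mul_right _ _
    · rw [Ideal.span_le, Set.singleton_subset_iff]
      show φ2 _ = 0
      rw [h1]
      have h4 : x ∈ RingHom.ker φ := by
        rw [hker]
        exact Ideal.mem_span_singleton_self x
      exact h4

theorem logHeight_pair {M : Type} [Field M] [NumberField M] (a b : M) :
    logHeight ![a, b] = logHeight₁ (a / b) := (logHeight₁_div_eq_logHeight a b).symm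

/-- all elements of `A` are integral -/
theorem int_all {K A Q : Type} [Field K] [CommRing A] [Algebra K A] [Field Q] [Algebra K Q] [Algebra A Q]
    [IsScalarTower K A Q] (Z : Q) (S : Finset A) (hS : Algebra.adjoin K (S : Set A) = ⊤)
    (h : ∀ y ∈ S, (aeval Z : K[X] →ₐ[K] Q).toRingHom.IsIntegralElem (algebraMap A Q y)) (a : A) :
    (aeval Z : K[X] →ₐ[K] Q).toRingHom.IsIntegralElem (algebraMap A Q a) := by
  letI : Algebra K[X] Q := (aeval Z : K[X] →ₐ[K] Q).toRingHom.toAlgebra
  haveI : IsScalarTower K K[X] Q := IsScalarTower.of_algebraMap_eq fun x => by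
    show _ = (aeval Z : K[X] →ₐ[K] Q) _
    simp
  have ha : a ∈ Algebra.adjoin K (S : Set A) := by rw [hS]; exact Algebra.mem_top
  show IsIntegral K[X] (algebraMap A Q a)
  refine Algebra.adjoin_induction (p := fun a _ => IsIntegral K[X] (algebraMap A Q a)) ?_ ?_ ?_ ?_ ha
  · intro x hx
    exact h x hx
  · intro r
    rw [← IsScalarTower.algebraMap_apply, IsScalarTower.algebraMap_apply K K[X] Q]
    exact isIntegral_algebraMap
  · intro x y _ _ hx hy
    rw [map_add]
    exact hx.add hy
  · intro x y _ _ hx hy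
    rw [map_mul]
    exact hx.mul hy

/-- **The height of the value of a rational function at the zero of a member.** -/
theorem ht : StmHt := by
  intro K A _ _ _ _ _ _ _ _ _ m f hf F G
  obtain ⟨D, hD⟩ := deg K A m f hf
  have hnn : ∀ c : Fin m → K, 0 ≤ (dgm K F G : ℝ) * logHeight c := fun c =>
    mul_nonneg (Nat.cast_nonneg _) (logHeight_nonneg _)
  -- absolute bounds
  have habs : ∀ C0 : ℝ, 0 ≤ C0 → ∀ (M : Type) [Field M] [NumberField M] [Algebra K M],
      finrank K M ≤ D → (finrank ℚ M : ℝ) * C0 ≤ finrank ℚ K * D * C0 := by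
    intro C0 h0 M _ _ _ hM
    refine mul_le_mul_of_nonneg_right ?_ h0
    have h5 : finrank ℚ K * finrank K M = finrank ℚ M := finrank_mul_finrank ℚ K M
    rw [← h5]
    push_cast
    have : (finrank K M : ℝ) ≤ D := by exact_mod_cast hM
    exact mul_le_mul_of_nonneg_left this (Nat.cast_nonneg _)
  by_cases hG0 : G = 0
  · refine ⟨0, fun M _ _ _ φ c _ _ _ _ => ?_⟩
    have hφG : φ G = 0 := by rw [hG0, map_zero]
    rw [logHeight_pair, hφG, div_zero, logHeight₁_zero]
    have := hnn c
    linarith
  set Q := FractionRing A with hQ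
  have hinj : Function.Injective (algebraMap A Q) := IsFractionRing.injective A Q
  have hGQ : algebraMap A Q G ≠ 0 := by
    rw [Ne, map_eq_zero_iff _ hinj]
    exact hG0
  set J : Q := algebraMap A Q F / algebraMap A Q G with hJdef
  have hmQ : ∀ p : K[X], algebraMap A Q (hm F G p) = algebraMap A Q G ^ p.natDegree * aeval J p :=
    fun p => hm_map (IsScalarTower.toAlgHom K A Q) F G p hGQ
  by_cases hJ : IsAlgebraic K J
  · obtain ⟨p, hp, hpJ⟩ := hJ
    have h1 : hm F G p = 0 := by
      apply hinj
      rw [hmQ, hpJ, mul_zero, map_zero]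
    obtain ⟨C0, hC0, hroot⟩ := Pool.Agent.N751.LS.ht_poly_root p hp
    refine ⟨finrank ℚ K * D * C0, fun M _ _ _ φ c hφ hker hc _ => ?_⟩
    rw [logHeight_pair]
    have h0 := hnn c
    by_cases hG : φ G = 0
    · rw [hG, div_zero, logHeight₁_zero]
      positivity
    · have h2 := hm_map φ F G p hG
      rw [h1, map_zero] at h2
      have h3 : aeval (φ F / φ G) p = 0 := by
        rcases mul_eq_zero.1 h2.symm with h | h
        · exact absurd h (pow_ne_zero _ hG)
        · exact h
      have h4 := hroot M (φ F / φ G) h3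
      have h5 := habs C0 hC0 M (hD M φ c hφ hker hc)
      linarith
  -- the transcendental case
  have hJt : Transcendental K J := hJ
  haveI : Algebra.FiniteType K[X] A := inferInstance
  haveI : Algebra.FiniteType K A := Algebra.FiniteType.trans (S := K[X]) inferInstance inferInstance
  obtain ⟨S, hS⟩ := (Algebra.FiniteType.out : (⊤ : Subalgebra K A).FG)
  classical
  obtain ⟨δ, hδ, hδ0, hδS⟩ := exists_delta (trdeg_one K A) hJt
    (S.image (algebraMap A Q) ∪ {(algebraMap A Q G)⁻¹})
  have hint := int_all (zet J δ) S hS (fun y hy => int_zet hδ hδ0 (hδS _ (by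
    exact Finset.mem_union_left _ (Finset.mem_image_of_mem _ hy))))
  have hintG := int_zet hδ hδ0 (hδS _ (Finset.mem_union_right _ (Finset.mem_singleton_self _)))
  -- the localisation
  have hs0 : algebraMap A Q (G * hm F G δ) ≠ 0 := s0_ne (IsScalarTower.toAlgHom K A Q) hGQ hδ0
  have hs0' : G * hm F G δ ≠ 0 := by
    intro h
    rw [h, map_zero] at hs0
    exact hs0 rfl
  have hpow : Submonoid.powers (G * hm F G δ) ≤ nonZeroDivisors A :=
    powers_le_nonZeroDivisors_of_noZeroDivisors hs0'
  let A2 := Localization.subalgebra.ofField Q (Submonoid.powers (G * hm F G δ)) hpow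
  haveI : IsLocalization.Away (G * hm F G δ) A2 :=
    Localization.subalgebra.isLocalization_ofField Q (Submonoid.powers (G * hm F G δ)) hpow
  haveI : IsFractionRing A2 Q := Localization.subalgebra.isFractionRing_ofField Q _ hpow
  have hinj2 : Function.Injective (algebraMap A A2) := by
    intro x y h
    apply hinj
    rw [IsScalarTower.algebraMap_apply A A2 Q, IsScalarTower.algebraMap_apply A A2 Q, h]
  have hf2 : LinearIndependent K (fun i => algebraMap A A2 (f i)) := by
    exact hf.map' (IsScalarTower.toAlgHom K A A2).toLinearMap (LinearMap.ker_eq_bot.2 hinj2)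
  obtain ⟨C1, hC1⟩ := ht_A2 (A2 := A2) (Q := Q) F G hδ hGQ hJt hδ0 hint hintG m
    (fun i => algebraMap A A2 (f i)) hf2
  -- the lower bound
  have hcop : IsCoprime (X * δ + 1) δ := ⟨1, -X, by ring⟩
  choose Cl hCl using Pool.Agent.N490.FR.lower (X * δ + 1) δ hcop
  obtain ⟨C0, hC0, hroot⟩ := Pool.Agent.N751.LS.ht_poly_root δ hδ.ne_zero
  set C2 : ℝ := ∑ r ∈ Finset.range (D + 1), |Cl r| with hC2
  have hC2' : 0 ≤ C2 := Finset.sum_nonneg fun r _ => abs_nonneg _
  refine ⟨finrank ℚ K * D * C0 + |C1| + C2, fun M _ _ _ φ c hφ hker hc _ => ?_⟩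
  rw [logHeight_pair]
  have h0 := hnn c
  have hMD := hD M φ c hφ hker hc
  have hC0D : 0 ≤ (finrank ℚ K : ℝ) * D * C0 := by positivity
  have hC1a := abs_nonneg C1
  by_cases hG : φ G = 0
  · rw [hG, div_zero, logHeight₁_zero]
    linarith
  by_cases hz : aeval (φ F / φ G) δ = 0
  · have h4 := hroot M (φ F / φ G) hz
    have h5 := habs C0 hC0 M hMD
    linarith
  have hφs : φ (G * hm F G δ) ≠ 0 := s0_ne φ hG hz
  obtain ⟨φ2, e1, e2, e3⟩ := ext_pt (A2 := A2) φ hφs hφ hker
  have hmem : algebraMap A A2 (mem f c) = mem (fun i => algebraMap A A2 (f i)) c := by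
    unfold mem
    rw [map_sum]
    refine Finset.sum_congr rfl fun i _ => ?_
    rw [Algebra.smul_def, Algebra.smul_def, map_mul, ← IsScalarTower.algebraMap_apply]
  rw [hmem] at e3
  have h6 := hC1 M φ2 c e2 e3 hc
  have h7 : φ2 (Z2 A2 F G δ) = zet (φ F / φ G) δ :=
    Z2_map A2 (φ2 : A2 →+* M) φ e1 hG hz
  rw [h7] at h6
  have h8 : zet (φ F / φ G) δ = aeval (φ F / φ G) (X * δ + 1) / aeval (φ F / φ G) δ := by
    unfold zet
    rw [map_add, map_mul, aeval_X, map_one]
    field_simp
  have h9 := hCl (finrank K M) M (φ F / φ G) rfl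
  rw [← h8] at h9
  have hdeg : max (X * δ + 1).natDegree δ.natDegree = δ.natDegree + 1 := by
    have h10 : (X * δ).natDegree = δ.natDegree + 1 := by
      rw [natDegree_X_mul hδ.ne_zero]
    have h11 : (X * δ + 1).natDegree = δ.natDegree + 1 := by
      rw [natDegree_add_eq_left_of_natDegree_lt, h10]
      rw [h10, natDegree_one]
      omega
    rw [h11]
    omega
  rw [hdeg] at h9
  have h12 : Cl (finrank K M) ≤ C2 := by
    refine (le_abs_self _).trans ?_
    rw [hC2]
    exact Finset.single_le_sum (f := fun r => |Cl r|) (fun r _ => abs_nonneg _)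
      (Finset.mem_range.2 (by omega))
  have hd : (dgm K F G : ℕ) = finrank (IntermediateField.adjoin K {J}) Q := rfl
  rw [← hd] at h6
  push_cast at h6 h9
  set hzz := logHeight₁ (φ F / φ G) with hhzz
  have hdp : (1 : ℝ) ≤ (δ.natDegree : ℝ) + 1 := by
    have : (0 : ℝ) ≤ δ.natDegree := Nat.cast_nonneg _
    linarith
  have h13 : ((δ.natDegree : ℝ) + 1) * hzz ≤
      ((δ.natDegree : ℝ) + 1) * (dgm K F G * logHeight c + (|C1| + C2)) := by
    have h14 := le_abs_self C1
    have h15 : |C1| + C2 ≤ ((δ.natDegree : ℝ) + 1) * (|C1| + C2) := by nlinarith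
    nlinarith
  have h16 := le_of_mul_le_mul_left h13 (by linarith)
  linarith

end Pool.Agent.J6H88.CP
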