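import Mathlib

/-!
# Integrality and degrees for `Z = J + 1 / δ(J)` in a function field of one variable
-/

set_option autoImplicit false
set_option linter.all false

namespace Pool.Agent.J6H88.CP

open Polynomial Module IntermediateField

/-- an element which is integral through `h`, if the image of `h` is integral -/
theorem int_trans {R B Q : Type} [CommRing R] [CommRing B] [CommRing Q] [Algebra R Q] (h : B →+* Q)
    (hB : ∀ b, IsIntegral R (h b)) {x : Q} (hx : h.IsIntegralElem x) : IsIntegral R x := by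
  obtain ⟨p, hp, hpe⟩ := hx
  let g : B →+* integralClosure R Q := h.codRestrict (integralClosure R Q) hB
  have h1 : IsIntegral (integralClosure R Q) x := by
    refine ⟨p.map g, hp.map g, ?_⟩
    rw [eval₂_map]
    exact hpe
  exact isIntegral_trans (R := R) x h1

section J

variable {K Q : Type} [Field K] [Field Q] [Algebra K Q]

/-- `J + 1 / δ(J)` -/
noncomputable def zet (J : Q) (δ : K[X]) : Q := J + (aeval J δ)⁻¹

/-- the equation of `J` over `Z` -/
noncomputable def eqn (δ : K[X]) : K[X][X] := (X - C X) * δ.map C + 1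

theorem eqn_monic {δ : K[X]} (hδ : δ.Monic) : (eqn δ).Monic := by
  unfold eqn
  have h1 : ((X - C X) * δ.map C : K[X][X]).Monic := (monic_X_sub_C _).mul (hδ.map C)
  refine h1.add_of_left ?_
  rw [degree_one, degree_eq_natDegree h1.ne_zero, (monic_X_sub_C _).natDegree_mul (hδ.map C),
    natDegree_X_sub_C]
  exact_mod_cast (by omega : 0 < 1 + (δ.map (C : K →+* K[X])).natDegree)

theorem eqn_natDegree {δ : K[X]} (hδ : δ.Monic) : (eqn δ).natDegree = δ.natDegree + 1 := by
  unfold eqn
  have h1 : ((X - C X) * δ.map C : K[X][X]).Monic := (monic_X_sub_C _).mul (hδ.map C)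
  have h2 : ((X - C X) * δ.map C : K[X][X]).natDegree = δ.natDegree + 1 := by
    rw [(monic_X_sub_C _).natDegree_mul (hδ.map C), natDegree_X_sub_C, hδ.natDegree_map]
    ring
  rw [natDegree_add_eq_left_of_natDegree_lt, h2]
  rw [h2, natDegree_one]
  omega

theorem eqn_eval {J : Q} {δ : K[X]} (h0 : aeval J δ ≠ 0) :
    (eqn δ).eval₂ (aeval (zet J δ) : K[X] →ₐ[K] Q).toRingHom J = 0 := by
  unfold eqn
  rw [eval₂_add, eval₂_mul, eval₂_sub, eval₂_X, eval₂_C, eval₂_one, eval₂_map]
  have h1 : (aeval (zet J δ) : K[X] →ₐ[K] Q).toRingHom.comp C = algebraMap K Q := by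
    ext x
    simp
  rw [h1, ← aeval_def]
  have h2 : (aeval (zet J δ) : K[X] →ₐ[K] Q).toRingHom X = zet J δ := by simp
  rw [h2]
  unfold zet
  field_simp
  ring

theorem eqn_int {J : Q} {δ : K[X]} (hδ : δ.Monic) (h0 : aeval J δ ≠ 0) :
    (aeval (zet J δ) : K[X] →ₐ[K] Q).toRingHom.IsIntegralElem J :=
  ⟨eqn δ, eqn_monic hδ, eqn_eval h0⟩

/-- polynomials in an integral element -/
theorem aeval_int {R : Type} [CommRing R] [Algebra K R] [Algebra R Q] [IsScalarTower K R Q] {J : Q}
    (hJ : IsIntegral R J) (p : K[X]) : IsIntegral R (aeval J p) := by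
  have h : (aeval J p : Q) ∈ integralClosure R Q := by
    rw [aeval_def, eval₂_eq_sum_range]
    refine Subalgebra.sum_mem _ fun i _ => Subalgebra.mul_mem _ ?_ (Subalgebra.pow_mem _ hJ i)
    rw [IsScalarTower.algebraMap_apply K R Q]
    exact Subalgebra.algebraMap_mem _ _
  exact h

theorem zet_transcendental {J : Q} {δ : K[X]} (hδ : δ.Monic) (hJ : Transcendental K J)
    (h0 : aeval J δ ≠ 0) : Transcendental K (zet J δ) := by
  intro hZ
  apply hJ
  have hZi : IsIntegral K (zet J δ) := hZ.isIntegral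
  have h1 : IsIntegral K J := by
    refine int_trans (aeval (zet J δ) : K[X] →ₐ[K] Q).toRingHom (fun b => ?_) (eqn_int hδ h0)
    exact aeval_int hZi b
  exact h1.isAlgebraic

/-- **Integrality.** -/
theorem int_zet {J : Q} {δ : K[X]} (hδ : δ.Monic) (h0 : aeval J δ ≠ 0) {y : Q}
    (hy : (aeval J : K[X] →ₐ[K] Q).toRingHom.IsIntegralElem (aeval J δ * y)) :
    (aeval (zet J δ) : K[X] →ₐ[K] Q).toRingHom.IsIntegralElem y := by
  letI : Algebra K[X] Q := (aeval (zet J δ) : K[X] →ₐ[K] Q).toRingHom.toAlgebra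
  haveI : IsScalarTower K K[X] Q := IsScalarTower.of_algebraMap_eq fun x => by
    show _ = (aeval (zet J δ) : K[X] →ₐ[K] Q) _
    simp
  have hJ : IsIntegral K[X] J := eqn_int hδ h0
  have h1 : IsIntegral K[X] (aeval J δ * y) :=
    int_trans (aeval J : K[X] →ₐ[K] Q).toRingHom (fun b => aeval_int hJ b) hy
  have h2 : (aeval J δ)⁻¹ = algebraMap K[X] Q X - J := by
    have : algebraMap K[X] Q X = zet J δ := by
      show (aeval (zet J δ) : K[X] →ₐ[K] Q) X = _
      simp
    rw [this]
    unfold zet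
    ring
  have h3 : IsIntegral K[X] ((aeval J δ)⁻¹) := by
    rw [h2]
    exact isIntegral_algebraMap.sub hJ
  have h4 : y = (aeval J δ)⁻¹ * (aeval J δ * y) := by
    field_simp
  have h5 : IsIntegral K[X] y := by
    rw [h4]
    exact h3.mul h1
  exact h5

theorem inv_int {J : Q} {δ : K[X]} (hδ : δ.Monic) (h0 : aeval J δ ≠ 0) :
    (aeval (zet J δ) : K[X] →ₐ[K] Q).toRingHom.IsIntegralElem ((aeval J δ)⁻¹) := by
  refine int_zet hδ h0 ?_
  rw [mul_inv_cancel₀ h0]
  exact RingHom.isIntegralElem_one _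

/-- **The degree.** -/
theorem finrank_zet {J : Q} {δ : K[X]} (hδ : δ.Monic) (h0 : aeval J δ ≠ 0) :
    finrank (IntermediateField.adjoin K {zet J δ}) Q ≤
      (δ.natDegree + 1) * finrank (IntermediateField.adjoin K {J}) Q := by
  set LZ := IntermediateField.adjoin K {zet J δ} with hLZ
  set LJ := IntermediateField.adjoin K {J} with hLJ
  have hJ : J ∈ LJ := mem_adjoin_simple_self K J
  have hZ : zet J δ ∈ LJ := by
    unfold zet
    refine LJ.add_mem hJ (LJ.inv_mem ?_)
    have h := (aeval (⟨J, hJ⟩ : LJ) δ).2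
    rwa [← IntermediateField.aeval_coe] at h
  have hle : LZ ≤ LJ := adjoin_simple_le_iff.2 hZ
  have h1 := relfinrank_mul_finrank_top hle
  rw [← h1]
  refine Nat.mul_le_mul_right _ ?_
  rw [relfinrank_eq_finrank_of_le hle, extendScalars_adjoin hle]
  -- the polynomial over `LZ`
  have hZ' : zet J δ ∈ LZ := mem_adjoin_simple_self K _
  let g : K[X] →ₐ[K] LZ := aeval ⟨zet J δ, hZ'⟩
  have hm : ((eqn δ).map g.toRingHom).Monic := (eqn_monic hδ).map _
  have hcomp : (algebraMap LZ Q).comp g.toRingHom = (aeval (zet J δ) : K[X] →ₐ[K] Q).toRingHom := by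
    apply Polynomial.ringHom_ext
    · intro a
      simp [g]
    · simp [g]
  have he : aeval J ((eqn δ).map g.toRingHom) = 0 := by
    rw [aeval_def, eval₂_map, hcomp]
    exact eqn_eval h0
  have hi : IsIntegral LZ J := ⟨_, hm, he⟩
  rw [adjoin.finrank hi]
  calc (minpoly LZ J).natDegree ≤ ((eqn δ).map g.toRingHom).natDegree :=
        natDegree_le_natDegree (minpoly.min LZ J hm he)
    _ = δ.natDegree + 1 := by rw [(eqn_monic hδ).natDegree_map, eqn_natDegree hδ]

end J

end Pool.Agent.J6H88.CP
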