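import Pool.Agent.J6H88.CP.HtA

/-!
# The localisation which is finite over `K[Z]`
-/

set_option autoImplicit false
set_option linter.all false

namespace Pool.Agent.J6H88.CP

open Polynomial Module IntermediateField

/-- the transcendence degree of the function field -/
theorem trdeg_one (K A : Type) [Field K] [CommRing A] [IsDomain A] [Algebra K A] [Algebra K[X] A]
    [IsScalarTower K K[X] A] [Module.Finite K[X] A] [FaithfulSMul K[X] A] :
    Algebra.trdeg K (FractionRing A) = 1 := by
  haveI : FaithfulSMul K[X] (FractionRing A) := by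
    rw [faithfulSMul_iff_algebraMap_injective]
    rw [IsScalarTower.algebraMap_eq K[X] A (FractionRing A)]
    exact (IsFractionRing.injective A (FractionRing A)).comp (FaithfulSMul.algebraMap_injective K[X] A)
  haveI : Algebra.IsAlgebraic A (FractionRing A) := IsLocalization.isAlgebraic _ (nonZeroDivisors A)
  haveI : Algebra.IsAlgebraic K[X] (FractionRing A) := Algebra.IsAlgebraic.trans K[X] A (FractionRing A)
  have h := trdeg_add_eq K K[X] (A := FractionRing A)
  rw [Polynomial.trdeg_of_isDomain, trdeg_eq_zero, add_zero] at h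
  exact h.symm

section J

variable {K Q : Type} [Field K] [Field Q] [Algebra K Q]

/-- a common denominator in `K[J]` -/
theorem exists_delta (h1 : Algebra.trdeg K Q = 1) {J : Q} (hJ : Transcendental K J) (s : Finset Q) :
    ∃ δ : K[X], δ.Monic ∧ aeval J δ ≠ 0 ∧
      ∀ y ∈ s, (aeval J : K[X] →ₐ[K] Q).toRingHom.IsIntegralElem (aeval J δ * y) := by
  letI : Algebra K[X] Q := (aeval J : K[X] →ₐ[K] Q).toRingHom.toAlgebra
  haveI : IsScalarTower K K[X] Q := IsScalarTower.of_algebraMap_eq fun x => by
    show _ = (aeval J : K[X] →ₐ[K] Q) _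
    simp
  have hinj : Function.Injective (algebraMap K[X] Q) := by
    have := transcendental_iff_injective.1 hJ
    exact this
  haveI : FaithfulSMul K[X] Q := (faithfulSMul_iff_algebraMap_injective _ _).2 hinj
  have h2 := trdeg_add_eq K K[X] (A := Q)
  rw [Polynomial.trdeg_of_isDomain, h1] at h2
  have h3 : Algebra.trdeg K[X] Q = 0 := by
    have h4 : Algebra.trdeg K[X] Q + 1 = 0 + 1 := by rw [add_comm, h2, zero_add]
    exact (Cardinal.add_right_inj_of_lt_aleph0 Cardinal.one_lt_aleph0).1 h4
  have halg : Algebra.IsAlgebraic K[X] Q := trdeg_eq_zero_iff.1 h3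
  obtain ⟨y, hy, hint⟩ := Algebra.IsAlgebraic.exists_integral_multiples K[X] s
  refine ⟨C (y.leadingCoeff⁻¹) * y, ?_, ?_, fun z hz => ?_⟩
  · rw [mul_comm]
    exact monic_mul_leadingCoeff_inv hy
  · intro h0
    have h5 : algebraMap K[X] Q (C (y.leadingCoeff⁻¹) * y) = 0 := h0
    rw [map_eq_zero_iff _ hinj] at h5
    exact mul_ne_zero (C_ne_zero.2 (inv_ne_zero (leadingCoeff_ne_zero.2 hy))) hy h5
  · have h5 := hint z hz
    have h6 : IsIntegral K[X] (algebraMap K[X] Q (C (y.leadingCoeff⁻¹)) * (y • z)) :=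
      isIntegral_algebraMap.mul h5
    have h7 : algebraMap K[X] Q (C (y.leadingCoeff⁻¹)) * (y • z) =
        (aeval J : K[X] →ₐ[K] Q) (C (y.leadingCoeff⁻¹) * y) * z := by
      rw [Algebra.smul_def, ← mul_assoc, ← map_mul]
      rfl
    rw [h7] at h6
    exact h6

end J

end Pool.Agent.J6H88.CP
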