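import Pool.Agent.J6H88.CP.HtB
import Pool.Agent.J6H73.CP.Stm

/-!
# The localisation `A₂` and the function `Z`
-/

set_option autoImplicit false
set_option linter.all false

namespace Pool.Agent.J6H88.CP

open Polynomial Module IntermediateField NumberField Height
open Pool.Agent.N753.DR (mem)

section hm

variable {K A : Type} [Field K] [CommRing A] [Algebra K A]

/-- `G ^ d p(F / G)` -/
noncomputable def hm (F G : A) (p : K[X]) : A :=
  ∑ i ∈ Finset.range (p.natDegree + 1), algebraMap K A (p.coeff i) * F ^ i * G ^ (p.natDegree - i)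

theorem hm_map {L : Type} [Field L] [Algebra K L] (ψ : A →ₐ[K] L) (F G : A) (p : K[X]) (hG : ψ G ≠ 0) :
    ψ (hm F G p) = ψ G ^ p.natDegree * aeval (ψ F / ψ G) p := by
  unfold hm
  rw [aeval_eq_sum_range, map_sum, Finset.mul_sum]
  refine Finset.sum_congr rfl fun i hi => ?_
  have hi' : i ≤ p.natDegree := by
    rw [Finset.mem_range] at hi
    omega
  rw [map_mul, map_mul, map_pow, map_pow, AlgHom.commutes, Algebra.smul_def, div_pow]
  have h1 : ψ G ^ p.natDegree = ψ G ^ (p.natDegree - i) * ψ G ^ i := by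
    rw [← pow_add]; congr 1; omega
  rw [h1]
  field_simp

/-- the element `J + 1 / δ(J)` of the localisation -/
noncomputable def Z2 (A2 : Type) [CommRing A2] [Algebra A A2] (F G : A) (δ : K[X])
    [IsLocalization.Away (G * hm F G δ) A2] : A2 :=
  algebraMap A A2 (F * hm F G δ + G ^ (δ.natDegree + 1)) * IsLocalization.Away.invSelf (G * hm F G δ)

theorem s0_ne {L : Type} [Field L] [Algebra K L] (ψ : A →ₐ[K] L) {F G : A} {δ : K[X]} (hG : ψ G ≠ 0)
    (h0 : aeval (ψ F / ψ G) δ ≠ 0) : ψ (G * hm F G δ) ≠ 0 := by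
  rw [map_mul, hm_map ψ F G δ hG]
  exact mul_ne_zero hG (mul_ne_zero (pow_ne_zero _ hG) h0)

theorem inv_map {L : Type} [Field L] [Algebra K L] (A2 : Type) [CommRing A2] [Algebra A A2]
    {s : A} [IsLocalization.Away s A2] (χ : A2 →+* L) (ψ : A →+* L) (h : ∀ a, χ (algebraMap A A2 a) = ψ a)
    (hs : ψ s ≠ 0) : χ (IsLocalization.Away.invSelf s) = (ψ s)⁻¹ := by
  have h1 := congrArg χ (IsLocalization.Away.mul_invSelf (S := A2) s)
  rw [map_mul, map_one, h] at h1
  exact eq_inv_of_mul_eq_one_right h1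

theorem Z2_map {L : Type} [Field L] [Algebra K L] (A2 : Type) [CommRing A2] [Algebra A A2]
    {F G : A} {δ : K[X]} [IsLocalization.Away (G * hm F G δ) A2] (χ : A2 →+* L) (ψ : A →ₐ[K] L)
    (h : ∀ a, χ (algebraMap A A2 a) = ψ a) (hG : ψ G ≠ 0) (h0 : aeval (ψ F / ψ G) δ ≠ 0) :
    χ (Z2 A2 F G δ) = zet (ψ F / ψ G) δ := by
  unfold Z2
  rw [map_mul, inv_map (K := K) A2 χ (ψ : A →+* L) h (s0_ne ψ hG h0), h]
  unfold zet
  show ψ _ * (ψ _)⁻¹ = _
  rw [map_add, map_mul, map_mul, map_pow, hm_map ψ F G δ hG, pow_succ]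
  have h2 : ψ G ^ δ.natDegree ≠ 0 := pow_ne_zero _ hG
  generalize aeval (ψ F / ψ G) δ = w at h0 ⊢
  generalize ψ G ^ δ.natDegree = v at h2 ⊢
  field_simp

end hm

/-- **The height of `Z` at the zero of a member.** -/
theorem ht_A2 {K A A2 Q : Type} [Field K] [NumberField K] [CommRing A] [IsDomain A] [Algebra K A]
    [Algebra.FiniteType K A] [CommRing A2] [IsDomain A2] [Algebra K A2] [Algebra A A2] [IsScalarTower K A A2]
    [Field Q] [Algebra K Q] [Algebra A Q] [IsScalarTower K A Q] [Algebra A2 Q] [IsScalarTower A A2 Q]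
    [IsScalarTower K A2 Q] [IsFractionRing A2 Q] (F G : A) {δ : K[X]} (hδ : δ.Monic)
    [IsLocalization.Away (G * hm F G δ) A2] (hG : algebraMap A Q G ≠ 0)
    (hJ : Transcendental K (algebraMap A Q F / algebraMap A Q G))
    (h0 : aeval (algebraMap A Q F / algebraMap A Q G) δ ≠ 0)
    (hint : ∀ a : A, (aeval (zet (algebraMap A Q F / algebraMap A Q G) δ) : K[X] →ₐ[K] Q).toRingHom.IsIntegralElem
      (algebraMap A Q a))
    (hintG : (aeval (zet (algebraMap A Q F / algebraMap A Q G) δ) : K[X] →ₐ[K] Q).toRingHom.IsIntegralElem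
      ((algebraMap A Q G)⁻¹)) (m : ℕ) (f : Fin m → A2) (hf : LinearIndependent K f) :
    ∃ C : ℝ, ∀ (M : Type) [Field M] [NumberField M] [Algebra K M] (φ : A2 →ₐ[K] M) (c : Fin m → K),
      Function.Surjective φ → RingHom.ker φ = Ideal.span {mem f c} → c ≠ 0 →
      logHeight₁ (φ (Z2 A2 F G δ)) ≤
        (((δ.natDegree + 1) * finrank (IntermediateField.adjoin K
          {algebraMap A Q F / algebraMap A Q G}) Q : ℕ) : ℝ) * logHeight c + C := by
  set J : Q := algebraMap A Q F / algebraMap A Q G with hJdef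
  have hZ : algebraMap A2 Q (Z2 A2 F G δ) = zet J δ :=
    Z2_map A2 (algebraMap A2 Q) (IsScalarTower.toAlgHom K A Q)
      (fun a => (IsScalarTower.algebraMap_apply A A2 Q a).symm) hG h0
  have hZt : Transcendental K (zet J δ) := zet_transcendental hδ hJ h0
  letI iA2 : Algebra K[X] A2 := (aeval (Z2 A2 F G δ) : K[X] →ₐ[K] A2).toRingHom.toAlgebra
  haveI : IsScalarTower K K[X] A2 := IsScalarTower.of_algebraMap_eq fun x => by
    show _ = (aeval (Z2 A2 F G δ) : K[X] →ₐ[K] A2) _
    simp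
  letI iQ : Algebra K[X] Q := (aeval (zet J δ) : K[X] →ₐ[K] Q).toRingHom.toAlgebra
  haveI : IsScalarTower K K[X] Q := IsScalarTower.of_algebraMap_eq fun x => by
    show _ = (aeval (zet J δ) : K[X] →ₐ[K] Q) _
    simp
  haveI tw : IsScalarTower K[X] A2 Q := IsScalarTower.of_algebraMap_eq fun p => by
    show (aeval (zet J δ) : K[X] →ₐ[K] Q) p = algebraMap A2 Q ((aeval (Z2 A2 F G δ) : K[X] →ₐ[K] A2) p)
    rw [← hZ, aeval_algebraMap_apply]
  have hinjQ : Function.Injective (algebraMap K[X] Q) := transcendental_iff_injective.1 hZt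
  haveI : FaithfulSMul K[X] Q := (faithfulSMul_iff_algebraMap_injective _ _).2 hinjQ
  have hinj2 : Function.Injective (algebraMap A2 Q) := IsFractionRing.injective A2 Q
  haveI : FaithfulSMul K[X] A2 := by
    rw [faithfulSMul_iff_algebraMap_injective]
    rw [IsScalarTower.algebraMap_eq K[X] A2 Q] at hinjQ
    exact Function.Injective.of_comp hinjQ
  -- integrality
  haveI : Algebra.IsIntegral K[X] A2 := by
    refine ⟨fun x => ?_⟩
    rw [← isIntegral_algebraMap_iff hinj2]
    obtain ⟨⟨a, s⟩, hs⟩ := IsLocalization.surj (Submonoid.powers (G * hm F G δ)) x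
    obtain ⟨n, hn⟩ := s.2
    have hs0 : algebraMap A Q (G * hm F G δ) ≠ 0 := s0_ne (IsScalarTower.toAlgHom K A Q) hG h0
    have h1 := congrArg (algebraMap A2 Q) hs
    simp only [map_mul] at h1
    rw [← IsScalarTower.algebraMap_apply, ← IsScalarTower.algebraMap_apply, ← hn, map_pow] at h1
    have h2 : algebraMap A2 Q x = algebraMap A Q a * ((algebraMap A Q (G * hm F G δ))⁻¹) ^ n := by
      rw [← h1, inv_pow]
      field_simp
    have h3 : (algebraMap A Q (G * hm F G δ))⁻¹ = ((algebraMap A Q G)⁻¹) ^ (δ.natDegree + 1) * (aeval J δ)⁻¹ := by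
      have h4 := hm_map (IsScalarTower.toAlgHom K A Q) F G δ hG
      have h5 : algebraMap A Q (hm F G δ) = algebraMap A Q G ^ δ.natDegree * aeval J δ := h4
      rw [map_mul, h5, mul_inv, mul_inv, pow_succ, inv_pow]
      ring
    have i1 : IsIntegral K[X] (algebraMap A Q a) := hint a
    have i2 : IsIntegral K[X] ((algebraMap A Q G)⁻¹) := hintG
    have i3 : IsIntegral K[X] ((aeval J δ)⁻¹ : Q) := inv_int hδ h0
    rw [h2, h3]
    exact i1.mul (((i2.pow _).mul i3).pow _)
  haveI : Algebra.FiniteType A A2 :=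
    IsLocalization.finiteType_of_monoid_fg (Submonoid.powers (G * hm F G δ)) A2
  haveI : Algebra.FiniteType K A2 := Algebra.FiniteType.trans (S := A) inferInstance inferInstance
  haveI : Algebra.FiniteType K[X] A2 := Algebra.FiniteType.of_restrictScalars_finiteType K K[X] A2
  haveI : Module.Finite K[X] A2 := Algebra.IsIntegral.finite
  obtain ⟨C, hC⟩ := Pool.Agent.N265.CV.t K A2 m f hf
  -- the degree
  have hrk : finrank K[X] A2 ≤ (δ.natDegree + 1) * finrank (IntermediateField.adjoin K {J}) Q := by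
    refine le_trans (le_of_eq ?_) (finrank_zet hδ h0)
    set LZ := IntermediateField.adjoin K {zet J δ} with hLZ
    have hmem : zet J δ ∈ LZ := mem_adjoin_simple_self K _
    letI iL : Algebra K[X] LZ := (aeval (⟨zet J δ, hmem⟩ : LZ) : K[X] →ₐ[K] LZ).toRingHom.toAlgebra
    haveI twL : IsScalarTower K[X] LZ Q := IsScalarTower.of_algebraMap_eq fun p => by
      show (aeval (zet J δ) : K[X] →ₐ[K] Q) p = algebraMap LZ Q ((aeval (⟨zet J δ, hmem⟩ : LZ) : K[X] →ₐ[K] LZ) p)
      rw [← aeval_algebraMap_apply]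
      rfl
    haveI : FaithfulSMul K[X] LZ := by
      rw [faithfulSMul_iff_algebraMap_injective]
      intro x y h
      apply hinjQ
      rw [IsScalarTower.algebraMap_apply K[X] LZ Q x, IsScalarTower.algebraMap_apply K[X] LZ Q y, h]
    haveI : IsFractionRing K[X] LZ := by
      refine IsFractionRing.of_field _ _ ?_
      rintro ⟨z, hz⟩
      obtain ⟨r, s, hrs⟩ := (mem_adjoin_simple_iff (F := K) z).1 hz
      refine ⟨r, s, Subtype.ext ?_⟩
      show z = algebraMap LZ Q (algebraMap K[X] LZ r / algebraMap K[X] LZ s)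
      rw [map_div₀, ← IsScalarTower.algebraMap_apply, ← IsScalarTower.algebraMap_apply]
      exact hrs
    exact (IsFractionRing.finrank_eq K[X] LZ A2 Q).symm
  refine ⟨C, fun M _ _ _ φ c h1 h2 h3 => ?_⟩
  have h4 := hC M φ c h1 h2 h3
  have h5 : algebraMap K[X] A2 X = Z2 A2 F G δ := by
    show (aeval (Z2 A2 F G δ) : K[X] →ₐ[K] A2) X = _
    simp
  rw [h5] at h4
  refine h4.trans ?_
  have h6 : 0 ≤ logHeight c := logHeight_nonneg _
  have h7 : (finrank K[X] A2 : ℝ) ≤ (((δ.natDegree + 1) * finrank (IntermediateField.adjoin K {J}) Q : ℕ) : ℝ) := by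
    exact_mod_cast hrk
  have := mul_le_mul_of_nonneg_right h7 h6
  linarith

end Pool.Agent.J6H88.CP
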